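import Pool.Agent.helper45.BR.Spec

/-!
# Project br, part PRM: primitives on domains without holes
-/

set_option autoImplicit false

open Complex Metric Set Filter Topology MeasureTheory MPS Pool.Agent.helper98.ILF
  Pool.Agent.helper16.Multibrot

noncomputable section

namespace BR

/-- reversing a segment. -/
theorem PRM_sI_symm (h : ℂ → ℂ) (a b : ℂ) : sI h b a = - sI h a b := by
  unfold sI
  have h1 := intervalIntegral.integral_comp_sub_left
    (fun t : ℝ => (b - a) * h (a + t * (b - a))) (a := 0) (b := 1) 1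
  rw [sub_self, sub_zero] at h1
  rw [← h1, ← intervalIntegral.integral_neg]
  apply intervalIntegral.integral_congr
  intro t _
  simp only
  have h2 : a + ((1 - t : ℝ) : ℂ) * (b - a) = b + t * (a - b) := by
    push_cast
    ring
  rw [h2]
  ring

/-- `z` can be reached by a polygon in `U` from `z0`. -/
def PRM_R (U : Set ℂ) (z0 z : ℂ) (γ : ℕ → ℂ) (m : ℕ) : Prop :=
  γ 0 = z0 ∧ γ m = z ∧ pS γ m ⊆ U

/-- append a point to a polygon. -/
def PRM_app (γ : ℕ → ℂ) (m : ℕ) (w : ℂ) : ℕ → ℂ := fun i => if i ≤ m then γ i else w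

theorem PRM_app_R (U : Set ℂ) (z0 z : ℂ) (γ : ℕ → ℂ) (m : ℕ) (w : ℂ)
    (hR : PRM_R U z0 z γ m) (hs : segment ℝ z w ⊆ U) :
    PRM_R U z0 w (PRM_app γ m w) (m + 1) := by
  obtain ⟨h0, h1, h2⟩ := hR
  refine ⟨by simp [PRM_app, h0], by simp [PRM_app], ?_⟩
  intro x hx
  unfold pS at hx
  rw [mem_iUnion₂] at hx
  obtain ⟨i, hi, hx⟩ := hx
  rw [Finset.mem_range] at hi
  unfold PRM_app at hx
  rcases Nat.lt_or_ge i m with him | him
  · rw [if_pos (le_of_lt him), if_pos (Nat.succ_le_of_lt him)] at hx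
    apply h2
    unfold pS
    rw [mem_iUnion₂]
    exact ⟨i, Finset.mem_range.mpr him, hx⟩
  · have : i = m := by omega
    subst this
    rw [if_pos le_rfl, if_neg (by omega), h1] at hx
    exact hs hx

theorem PRM_app_pI (h : ℂ → ℂ) (γ : ℕ → ℂ) (m : ℕ) (w : ℂ) :
    pI h (PRM_app γ m w) (m + 1) = pI h γ m + sI h (γ m) w := by
  unfold pI
  rw [Finset.sum_range_succ]
  congr 1
  · apply Finset.sum_congr rfl
    intro i hi
    rw [Finset.mem_range] at hi
    unfold PRM_app
    rw [if_pos (le_of_lt hi), if_pos (Nat.succ_le_of_lt hi)]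
  · unfold PRM_app
    rw [if_pos le_rfl, if_neg (by omega)]

/-- every point can be reached. -/
theorem PRM_reach (U : Set ℂ) (hU : IsOpen U) (hc : IsConnected U) (z0 : ℂ) (hz0 : z0 ∈ U) :
    ∀ z ∈ U, ∃ γ m, PRM_R U z0 z γ m := by
  set S : Set ℂ := {z | z ∈ U ∧ ∃ γ m, PRM_R U z0 z γ m} with hS
  set T : Set ℂ := {z | z ∈ U ∧ ¬ ∃ γ m, PRM_R U z0 z γ m} with hT
  have hSo : IsOpen S := by
    rw [Metric.isOpen_iff]
    rintro z ⟨hz, γ, m, hR⟩
    obtain ⟨r, hr, hb⟩ := Metric.isOpen_iff.mp hU z hz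
    refine ⟨r, hr, fun w hw => ⟨hb hw, PRM_app γ m w, m + 1, PRM_app_R U z0 z γ m w hR ?_⟩⟩
    exact ((convex_ball z r).segment_subset (mem_ball_self hr) hw).trans hb
  have hTo : IsOpen T := by
    rw [Metric.isOpen_iff]
    rintro z ⟨hz, hn⟩
    obtain ⟨r, hr, hb⟩ := Metric.isOpen_iff.mp hU z hz
    refine ⟨r, hr, fun w hw => ⟨hb hw, ?_⟩⟩
    rintro ⟨γ, m, hR⟩
    exact hn ⟨PRM_app γ m z, m + 1, PRM_app_R U z0 w γ m z hR
      (((convex_ball z r).segment_subset hw (mem_ball_self hr)).trans hb)⟩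
  have hd : Disjoint S T := by
    rw [Set.disjoint_left]
    rintro z ⟨_, h1⟩ ⟨_, h2⟩
    exact h2 h1
  have hcov : U ⊆ S ∪ T := by
    intro z hz
    by_cases h : ∃ γ m, PRM_R U z0 z γ m
    · exact Or.inl ⟨hz, h⟩
    · exact Or.inr ⟨hz, h⟩
  have hne : (U ∩ S).Nonempty :=
    ⟨z0, hz0, hz0, fun _ => z0, 0, rfl, rfl, by simp [pS]⟩
  have := hc.isPreconnected.subset_left_of_subset_union hSo hTo hd hcov hne
  intro z hz
  exact (this hz).2

/-- the value does not depend on the polygon. -/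
theorem PRM_indep (hPOL : POL_stmt) (U : Set ℂ) (h : ℂ → ℂ) (hU : IsOpen U) (hn : NoHole U)
    (hd : DifferentiableOn ℂ h U) (z0 z : ℂ) (γ : ℕ → ℂ) (m : ℕ) (δ : ℕ → ℂ) (k : ℕ)
    (h1 : PRM_R U z0 z γ m) (h2 : PRM_R U z0 z δ k) : pI h γ m = pI h δ k := by
  obtain ⟨a0, a1, a2⟩ := h1
  obtain ⟨b0, b1, b2⟩ := h2
  set η : ℕ → ℂ := fun i => if i ≤ m then γ i else δ (k - (i - m)) with hη
  have e1 : ∀ i ≤ m, η i = γ i := fun i hi => by simp only [hη]; rw [if_pos hi]
  have e2 : ∀ i ≤ k, η (m + i) = δ (k - i) := by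
    intro i hi
    rcases Nat.eq_zero_or_pos i with h | h
    · subst h
      rw [add_zero, e1 m le_rfl, Nat.sub_zero, a1, b1]
    · simp only [hη]
      rw [if_neg (by omega)]
      congr 2
      omega
  have hS : pS η (m + k) ⊆ U := by
    intro x hx
    unfold pS at hx
    rw [mem_iUnion₂] at hx
    obtain ⟨i, hi, hx⟩ := hx
    rw [Finset.mem_range] at hi
    rcases Nat.lt_or_ge i m with him | him
    · rw [e1 i (le_of_lt him), e1 (i + 1) him] at hx
      apply a2
      unfold pS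
      rw [mem_iUnion₂]
      exact ⟨i, Finset.mem_range.mpr him, hx⟩
    · obtain ⟨j, rfl⟩ := Nat.exists_eq_add_of_le him
      rw [e2 j (by omega), add_assoc, e2 (j + 1) (by omega), segment_symm] at hx
      apply b2
      unfold pS
      rw [mem_iUnion₂]
      refine ⟨k - (j + 1), Finset.mem_range.mpr (by omega), ?_⟩
      have : k - (j + 1) + 1 = k - j := by omega
      rw [this]
      exact hx
  have hcl : η 0 = η (m + k) := by
    rw [e1 0 (Nat.zero_le _), e2 k le_rfl, Nat.sub_self, a0, b0]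
  have hz := hPOL U h η (m + k) hU hn hd hS hcl
  have hsum : pI h η (m + k) = pI h γ m - pI h δ k := by
    unfold pI
    rw [Finset.sum_range_add, sub_eq_add_neg]
    congr 1
    · apply Finset.sum_congr rfl
      intro i hi
      rw [Finset.mem_range] at hi
      rw [e1 i (le_of_lt hi), e1 (i + 1) hi]
    · rw [← Finset.sum_range_reflect (fun i => sI h (δ i) (δ (i + 1))), ← Finset.sum_neg_distrib]
      apply Finset.sum_congr rfl
      intro i hi
      rw [Finset.mem_range] at hi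
      rw [e2 i (le_of_lt hi), add_assoc, e2 (i + 1) hi, PRM_sI_symm]
      have h3 : k - 1 - i = k - (i + 1) := by omega
      have h4 : k - 1 - i + 1 = k - i := by omega
      rw [h4, h3]
  rw [hsum] at hz
  exact sub_eq_zero.mp hz

/-- the integral over a segment in a ball with a primitive. -/
theorem PRM_seg (h g : ℂ → ℂ) (c : ℂ) (r : ℝ) (hg : ∀ z ∈ ball c r, HasDerivAt g (h z) z)
    (hd : DifferentiableOn ℂ h (ball c r)) (a b : ℂ) (ha : a ∈ ball c r) (hb : b ∈ ball c r) :
    sI h a b = g b - g a := by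
  have hmem : ∀ t ∈ Icc (0 : ℝ) 1, a + t * (b - a) ∈ ball c r := by
    intro t ht
    have := (convex_ball c r).add_smul_sub_mem ha hb ht
    simpa [Complex.real_smul] using this
  have hder : ∀ t ∈ uIcc (0 : ℝ) 1,
      HasDerivAt (fun t : ℝ => g (a + t * (b - a))) ((b - a) * h (a + t * (b - a))) t := by
    intro t ht
    rw [uIcc_of_le zero_le_one] at ht
    have h1 : HasDerivAt (fun t : ℝ => a + (t : ℂ) * (b - a)) (b - a) t := by
      have h2 : HasDerivAt (fun t : ℝ => (t : ℂ)) 1 t := by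
        exact HasDerivAt.ofReal_comp (hasDerivAt_id t)
      simpa using (h2.mul_const (b - a)).const_add a
    have h3 := (hg _ (hmem t ht)).comp_of_eq t h1 rfl
    rw [mul_comm] at h3
    exact h3
  have hint : IntervalIntegrable (fun t : ℝ => (b - a) * h (a + t * (b - a))) volume 0 1 := by
    apply ContinuousOn.intervalIntegrable
    rw [uIcc_of_le zero_le_one]
    apply ContinuousOn.mul continuousOn_const
    apply hd.continuousOn.comp _ hmem
    fun_prop
  have := intervalIntegral.integral_eq_sub_of_hasDerivAt hder hint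
  unfold sI
  rw [this]
  simp

theorem PRM (hPOL : POL_stmt) : PRM_stmt := by
  intro U h hU hc hn hd
  classical
  obtain ⟨z0, hz0⟩ := hc.nonempty
  have hreach := PRM_reach U hU hc z0 hz0
  choose! Γ M hR using hreach
  refine ⟨fun z => pI h (Γ z) (M z), ?_⟩
  intro z hz
  obtain ⟨r, hr, hb⟩ := Metric.isOpen_iff.mp hU z hz
  have hdb : DifferentiableOn ℂ h (ball z r) := hd.mono hb
  obtain ⟨g, hg⟩ := hdb.isExactOn_ball
  have hloc : ∀ w ∈ ball z r, pI h (Γ w) (M w) = g w + (pI h (Γ z) (M z) - g z) := by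
    intro w hw
    have h1 : segment ℝ z w ⊆ U :=
      ((convex_ball z r).segment_subset (mem_ball_self hr) hw).trans hb
    have h2 := PRM_app_R U z0 z (Γ z) (M z) w (hR z hz) h1
    have h3 := PRM_indep hPOL U h hU hn hd z0 w _ _ _ _ (hR w (hb hw)) h2
    rw [h3, PRM_app_pI, (hR z hz).2.1, PRM_seg h g z r hg hdb z w (mem_ball_self hr) hw]
    ring
  have hgz := (hg z (mem_ball_self hr)).add_const (pI h (Γ z) (M z) - g z)
  apply hgz.congr_of_eventuallyEq
  filter_upwards [isOpen_ball.mem_nhds (mem_ball_self hr)] with w hw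
  exact hloc w hw

end BR
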