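import Pool.Agent.helper58.BR.SpecN
import Pool.Agent.helper33.LE.BDA

/-!
# Row brn:BD3 (the bound for the number of Brauer characters)
-/

set_option autoImplicit false

namespace Pool.Agent.BR

open Pool.Agent.helper58.DC Pool.Agent.DI Pool.Agent.GR Pool.Agent.OB Pool.Agent.DR Pool.Agent.FI Pool.Agent.FI3 Pool.Agent.FI4 Pool.Agent.LE

theorem BD3 (hCTR : CTR_stmt) (hLOA : LOA_stmt) (hGM2 : GM2_stmt) (hCNL : CNL_stmt) (hLLN : LLN_stmt) (hTPR : FI.TPR_stmt) :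
    BD3_stmt := by
  intro p M hS hp2 c G _ _ D x θ χ hR hH
  obtain ⟨h, K, hK, hI1, hI2⟩ := hH
  obtain ⟨lo, m, l, hm, hl, hl1, hlX⟩ := BDA_le hLOA hGM2 hCNL hLLN hTPR p M hS hp2 G D x θ χ hR
  obtain ⟨-, hI, -⟩ := hTPR p M hS G
  have h0 : SB M ⊤ θ χ := (hI θ χ).1 hR.ind
  have hBl : Blk M χ (⊤ : Subgroup G) = Bl M ⊤ θ := by
    ext ψ
    constructor
    · rintro ⟨h1, h2⟩
      exact ⟨h1, ((hI ψ χ).1 h2).trans h0.symm⟩
    · rintro ⟨h1, h2⟩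
      exact ⟨h1, (hI ψ χ).2 (h2.trans h0)⟩
  have hmain := hCTR p M hS hp2 G D x θ χ lo h hI1 K hK m hm
  rw [← hBl] at hmain
  exact ⟨l, hl, hl1, hlX.trans (hmain.trans hI2)⟩

end Pool.Agent.BR
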